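import Pool.Agent.H37.HH.Targets4
import Pool.Agent.H3.CV.GC

/-!
# Half of all, row QUO: the quotients
-/

set_option autoImplicit false

open NumberField Complex Filter Topology MeasureTheory
open scoped ContDiff nonZeroDivisors

namespace Pool.Agent.H37.HH

open Pool.Agent.H33.HH Pool.Agent.H28.RC Pool.Agent.H37.CV
open Pool.Agent.H3.CV (nm_idS mem_pf idS_ne idS_dvd idS_le idS_union fin_pf)

variable {K : Type} [Field K] [NumberField K]

theorem qu_spec {f : Ideal (𝓞 K)} {S : Finset (PrI K)} (h : idS S ∣ f) : f = idS S * qu f S := by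
  have h1 : ∃ D, f = idS S * D := h
  unfold qu
  rw [dif_pos h1]
  exact h1.choose_spec

theorem qu_eq {f D : Ideal (𝓞 K)} {S : Finset (PrI K)} (h : f = idS S * D) : qu f S = D := by
  have h1 := qu_spec (f := f) (S := S) ⟨D, h⟩
  exact mul_left_cancel₀ (idS_ne S) (h1.symm.trans h)

theorem le_qu {f : Ideal (𝓞 K)} {S : Finset (PrI K)} (h : idS S ∣ f) : f ≤ qu f S := by
  conv_lhs => rw [qu_spec h]
  exact Ideal.mul_le_right

theorem idS_dvd_of {f : Ideal (𝓞 K)} (hf : f ≠ ⊥) {S : Finset (PrI K)} (h : S ⊆ pf f) :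
    idS S ∣ f := idS_dvd fun P hP => (mem_pf hf P).1 (h hP)

theorem idS_empty : idS (∅ : Finset (PrI K)) = ⊤ := by
  unfold idS
  rw [Finset.prod_empty, Ideal.one_eq_top]

theorem idS_singleton (P : PrI K) : idS {P} = P.1 := by
  unfold idS
  rw [Finset.prod_singleton]

theorem idS_sup {S : Finset (PrI K)} {P : PrI K} (h : P ∉ S) : idS S ⊔ P.1 = ⊤ := by
  have hP : P.1.IsMaximal := P.2.1.isMaximal P.2.2
  rw [sup_comm]
  exact hP.out.2 _ (left_lt_sup.2 fun h1 => h (idS_le h1))

open scoped Classical in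
theorem pf_QUO : Pool.Agent.H33.HH.T_QUO := by
  intro K _ _ f hf
  have key : ∀ S : Finset (PrI K), S ⊆ pf f → f = idS S * qu f S ∧ f ≤ qu f S ∧ qu f S ≠ ⊥ := by
    intro S hS
    have h1 := idS_dvd_of hf hS
    refine ⟨qu_spec h1, le_qu h1, fun h2 => hf ?_⟩
    rw [qu_spec h1, h2, Ideal.mul_bot]
  refine ⟨mem_pf hf, ?_, ?_, ?_⟩
  · intro S hS
    obtain ⟨h1, h2, h3⟩ := key S hS
    refine ⟨h1, h2, h3, fun P hP => h2.trans hP, ?_⟩
    intro m hm
    induction S using Finset.induction_on with
    | empty =>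
      intro _
      have : qu f ∅ = f := qu_eq (by rw [idS_empty, Ideal.top_mul])
      rw [this]
      exact hm
    | insert P S hP ih =>
      intro hD
      have hS' : S ⊆ pf f := (Finset.subset_insert P S).trans hS
      obtain ⟨h4, h5, h6⟩ := key S hS'
      have ih' := ih hS' h4 h5 h6 fun Q hQ => hD Q (Finset.mem_insert_of_mem hQ)
      obtain ⟨D, hD1, hD2⟩ := hD P (Finset.mem_insert_self P S)
      have hins : idS (insert P S) = P.1 * idS S := by
        unfold idS
        rw [Finset.prod_insert hP]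
      set X := qu f (insert P S) with hX
      rw [hins] at h1
      have hD' : D = idS S * X := by
        refine mul_left_cancel₀ (show P.1 ≠ 0 from P.2.2) ?_
        rw [← hD1, ← mul_assoc]
        exact h1
      have hq : qu f S = P.1 * X := by
        refine qu_eq ?_
        rw [h1, mul_comm P.1, mul_assoc]
      have h7 : X = X * (idS S ⊔ P.1) := by rw [idS_sup hP, Ideal.mul_top]
      rw [h7, Ideal.mul_sup, mul_comm X, mul_comm X, ← hD', ← hq]
      exact sup_le hD2 ih'
  · intro S hS T hST hT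
    obtain ⟨h1, h2, h3⟩ := key S hS
    obtain ⟨h4, h5, h6⟩ := key T hT
    have h7 : idS T = idS S * idS (T \ S) := by
      rw [← idS_union Finset.disjoint_sdiff, Finset.union_sdiff_of_subset hST]
    have h8 : qu f S = idS (T \ S) * qu f T := by
      refine qu_eq ?_
      rw [← mul_assoc, ← h7]
      exact h4
    rw [h8]
    exact Ideal.mul_le_right
  · intro g hg hfg
    have hfg0 : f * g ≠ ⊥ := mul_ne_zero hf hg
    have hno : ∀ P : PrI K, f ≤ P.1 → g ≤ P.1 → False := by
      intro P h1 h2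
      have h3 : f ⊔ g ≤ P.1 := sup_le h1 h2
      rw [hfg, top_le_iff] at h3
      exact P.2.1.ne_top h3
    have hmem : ∀ P : PrI K, P ∈ pf (f * g) ↔ P ∈ pf f ∨ P ∈ pf g := by
      intro P
      rw [mem_pf hfg0, mem_pf hf, mem_pf hg]
      exact P.2.1.mul_le
    have hdis : Disjoint (pf f) (pf g) := by
      rw [Finset.disjoint_left]
      intro P h1 h2
      exact hno P ((mem_pf hf P).1 h1) ((mem_pf hg P).1 h2)
    refine ⟨hdis, hmem, ?_, ?_⟩
    · intro S hS
      obtain ⟨h1, h2, h3⟩ := key S hS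
      refine ⟨qu_eq ?_, ?_⟩
      · rw [← mul_assoc, ← h1]
      · rw [eq_top_iff, ← hfg]
        exact sup_le_sup_right h2 g
    · intro S T hS hT
      obtain ⟨h1, h2, h3⟩ := key S hS
      have h4 := qu_spec (idS_dvd_of hg hT)
      have h5 : Disjoint S T := Finset.disjoint_of_subset_left hS
        (Finset.disjoint_of_subset_right hT hdis)
      refine qu_eq ?_
      rw [idS_union h5]
      calc f * g = (idS S * qu f S) * (idS T * qu g T) := by rw [← h1, ← h4]
        _ = _ := by ring

end Pool.Agent.H37.HH
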