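import Pool.Agent.H37.HH.QUO
import Pool.Agent.H37.CV.IE

/-!
# Half of all, row IEX: primitive characters by inclusion and exclusion
-/

set_option autoImplicit false

open NumberField NumberField.InfinitePlace Complex Filter Topology MeasureTheory
open scoped ContDiff nonZeroDivisors

namespace Pool.Agent.H37.HH

open Pool.Agent.H33.HH Pool.Agent.H28.RC Pool.Agent.H37.CV
open Pool.Agent.H3.CV (nm_idS mem_pf idS_ne idS_dvd idS_le idS_union fin_pf)

variable {K : Type} [Field K] [NumberField K]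

theorem incl_exclR {α β : Type} [DecidableEq α] (U : Finset β) (PP : Finset α)
    (A : α → β → Prop) [∀ P x, Decidable (A P x)] (f : β → ℝ) :
    ∑ x ∈ U with (∀ P ∈ PP, ¬ A P x), f x =
      ∑ s ∈ PP.powerset, (-1 : ℝ) ^ s.card * ∑ x ∈ U with (∀ P ∈ s, A P x), f x := by
  have h1 : ∀ x, (if ∀ P ∈ PP, ¬ A P x then (1 : ℝ) else 0) =
      ∑ s ∈ PP.powerset, (-1 : ℝ) ^ s.card * if ∀ P ∈ s, A P x then 1 else 0 := by
    intro x
    have h2 : (if ∀ P ∈ PP, ¬ A P x then (1 : ℝ) else 0) =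
        ∏ P ∈ PP, ((-(if A P x then 1 else 0)) + 1) := by
      by_cases h : ∀ P ∈ PP, ¬ A P x
      · rw [if_pos h, Finset.prod_eq_one]
        intro P hP
        rw [if_neg (h P hP)]; ring
      · rw [if_neg h]
        push Not at h
        obtain ⟨P, hP, hPx⟩ := h
        rw [Finset.prod_eq_zero hP]
        rw [if_pos hPx]; ring
    rw [h2, Finset.prod_add]
    refine Finset.sum_congr rfl fun s hs => ?_
    rw [Finset.prod_const_one, mul_one]
    by_cases h : ∀ P ∈ s, A P x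
    · rw [if_pos h, mul_one, Finset.prod_congr rfl (g := fun _ => (-1 : ℝ)) (fun P hP => by
        rw [if_pos (h P hP)]), Finset.prod_const]
    · rw [if_neg h, mul_zero]
      push Not at h
      obtain ⟨P, hP, hPx⟩ := h
      rw [Finset.prod_eq_zero hP]
      rw [if_neg hPx]; ring
  rw [Finset.sum_filter]
  have h2 : ∀ x ∈ U, (if ∀ P ∈ PP, ¬ A P x then f x else 0) =
      ∑ s ∈ PP.powerset, (-1 : ℝ) ^ s.card * if ∀ P ∈ s, A P x then f x else 0 := by
    intro x _
    have h3 : (if ∀ P ∈ PP, ¬ A P x then f x else 0) =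
        (if ∀ P ∈ PP, ¬ A P x then (1 : ℝ) else 0) * f x := by
      split_ifs <;> simp
    rw [h3, h1, Finset.sum_mul]
    refine Finset.sum_congr rfl fun s _ => ?_
    split_ifs <;> simp
  rw [Finset.sum_congr rfl h2, Finset.sum_comm]
  refine Finset.sum_congr rfl fun s _ => ?_
  rw [Finset.sum_filter, Finset.mul_sum]

theorem qu_singleton {m : Ideal (𝓞 K)} {P : PrI K} (h : m ≤ P.1) : qu m {P} = cof m P.1 :=
  qu_eq (by rw [idS_singleton]; exact cof_spec h)

open scoped Classical in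
/-- the condition modulo the quotients -/
theorem mem_Ch_qu {m : Ideal (𝓞 K)} (hm : m ≠ ⊥) (hmt : m ≠ ⊤) {S : Finset (PrI K)}
    (hS : S ⊆ pf m) {ψ : Ideal (𝓞 K) → ℂ} (hψ : ψ ∈ Ch m m) :
    (∀ P ∈ S, ψ ∈ Ch m (cof m P.1)) ↔ ψ ∈ Ch m (qu m S) := by
  obtain ⟨h1, h2, h3, -⟩ := pf_QUO K m hm
  constructor
  · intro h
    have h4 := (Ch_sup hm hmt (cof m) (S.map ⟨Subtype.val, Subtype.val_injective⟩)
      (fun P _ => le_cof m P) ψ hψ).1 (by
        intro P hP
        obtain ⟨Q, hQ, rfl⟩ := Finset.mem_map.1 hP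
        exact h Q hQ)
    have h5 : m ⊔ (S.map ⟨Subtype.val, Subtype.val_injective⟩).sup (cof m) = qu m S := by
      refine le_antisymm (sup_le (h2 S hS).2.1 ?_) ?_
      · refine Finset.sup_le fun P hP => ?_
        obtain ⟨Q, hQ, rfl⟩ := Finset.mem_map.1 hP
        have h6 := h3 {Q} (by
          rw [Finset.singleton_subset_iff]
          exact hS hQ) S (by rwa [Finset.singleton_subset_iff]) hS
        rw [qu_singleton ((h1 Q).1 (hS hQ))] at h6
        exact h6
      · refine (h2 S hS).2.2.2.2 _ le_sup_left fun P hP => ⟨cof m P.1,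
          cof_spec ((h1 P).1 (hS hP)), le_trans ?_ le_sup_right⟩
        exact Finset.le_sup (f := cof m) (Finset.mem_map.2 ⟨P, hP, rfl⟩)
    rwa [h5] at h4
  · intro h P hP
    have h6 := h3 {P} (by
      rw [Finset.singleton_subset_iff]
      exact hS hP) S (by rwa [Finset.singleton_subset_iff]) hS
    rw [qu_singleton ((h1 P).1 (hS hP))] at h6
    exact Ch_mono h6 h

/-- the primitive characters and the characters which are not defined modulo a proper divisor -/
theorem bij_Pr' [IsTotallyComplex K] {m : Ideal (𝓞 K)} (hm : m ≠ ⊥) (hmt : m ≠ ⊤) :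
    Set.BijOn (fun χ : RCC K => χ.ψ) (Pr K m)
      {ψ | ψ ∈ Ch m m ∧ ∀ P ∈ pf m, ψ ∉ Ch m (cof m P.1)} := by
  have h := bij_Pr (K := K) hm hmt
  have h1 : {ψ | ψ ∈ Ch m m ∧ ∀ P : Ideal (𝓞 K), P.IsPrime → m ≤ P → ψ ∉ Ch m (cof m P)} =
      {ψ | ψ ∈ Ch m m ∧ ∀ P ∈ pf m, ψ ∉ Ch m (cof m P.1)} := by
    ext ψ
    constructor
    · rintro ⟨h2, h3⟩
      exact ⟨h2, fun P hP => h3 P.1 P.2.1 ((mem_pf hm P).1 hP)⟩
    · rintro ⟨h2, h3⟩
      refine ⟨h2, fun P hP hmP => ?_⟩
      have hPb : P ≠ ⊥ := by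
        rintro rfl
        exact hm (le_bot_iff.1 hmP)
      exact h3 ⟨P, hP, hPb⟩ ((mem_pf hm _).2 hmP)
  rwa [h1] at h

open scoped Classical in
theorem pf_IEX (hOR : T_OR) : Pool.Agent.H33.HH.T_IEX := by
  intro K _ _ _ m hm
  have hUf := (hOR K m m hm le_rfl).1
  have hPf : (Pr K m).Finite := by
    by_cases hmt : m = ⊤
    · refine Set.Finite.of_finite_image (f := fun χ : RCC K => χ.ψ) (hUf.subset ?_) ?_
      · rintro _ ⟨χ, hχ, rfl⟩
        have hf : χ.f = m := hχ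
        have h1 : PC m χ.ψ := by rw [← hf]; exact RCC_PC χ
        refine ⟨h1, fun a b ha hb _ _ _ => ?_⟩
        show χ.ψ (Ideal.span {a}) = χ.ψ (Ideal.span {b})
        rw [h1.ray a ha (by rw [hmt]; trivial) fun v => (RP_empty.false v).elim,
          h1.ray b hb (by rw [hmt]; trivial) fun v => (RP_empty.false v).elim]
      · intro χ hχ χ' hχ' h
        have hf : χ.f = m := hχ
        have hf' : χ'.f = m := hχ'
        have : IsEmpty (RP K) := RP_empty
        obtain ⟨f, S, ψ, _, _, _, _, _, _, _, _⟩ := χ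
        obtain ⟨f', S', ψ', _, _, _, _, _, _, _, _⟩ := χ'
        simp only at h hf hf'
        subst h hf hf'
        have : S = S' := Subsingleton.elim _ _
        subst this
        rfl
    · have hbij := bij_Pr' (K := K) hm hmt
      refine Set.Finite.of_finite_image ?_ hbij.injOn
      rw [hbij.image_eq]
      exact hUf.subset fun ψ h => h.1
  have hsub : ∀ S : Finset (PrI K), S ⊆ pf m → m ≤ qu m S := fun S hS =>
    le_qu (idS_dvd_of hm hS)
  have hset : m ≠ ⊤ → ∀ S : Finset (PrI K), S ⊆ pf m →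
      (hUf.subset (Ch_mono (show m ≤ m ⊔ qu m S from le_sup_left))).toFinset =
        hUf.toFinset.filter (fun ψ => ∀ P ∈ S, ψ ∈ Ch m (cof m P.1)) := by
    intro hmt S hS
    ext ψ
    rw [Set.Finite.mem_toFinset, Finset.mem_filter, Set.Finite.mem_toFinset,
      sup_eq_right.2 (hsub S hS)]
    constructor
    · intro h
      have h2 : ψ ∈ Ch m m := Ch_mono (hsub S hS) h
      exact ⟨h2, (mem_Ch_qu hm hmt hS h2).2 h⟩
    · rintro ⟨h, h2⟩
      exact (mem_Ch_qu hm hmt hS h).1 h2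
  have hsumC : m ≠ ⊤ → ∀ S : Finset (PrI K), S ⊆ pf m → ∀ F : (Ideal (𝓞 K) → ℂ) → ℂ,
      ∑ᶠ ψ ∈ Ch m (qu m S), F ψ =
        ∑ ψ ∈ hUf.toFinset.filter (fun ψ => ∀ P ∈ S, ψ ∈ Ch m (cof m P.1)), F ψ := by
    intro hmt S hS F
    rw [← hset hmt S hS, ← finsum_mem_eq_finite_toFinset_sum F
      (hUf.subset (Ch_mono (show m ≤ m ⊔ qu m S from le_sup_left))), sup_eq_right.2 (hsub S hS)]
  have hsumR : m ≠ ⊤ → ∀ S : Finset (PrI K), S ⊆ pf m → ∀ F : (Ideal (𝓞 K) → ℂ) → ℝ,
      ∑ᶠ ψ ∈ Ch m (qu m S), F ψ =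
        ∑ ψ ∈ hUf.toFinset.filter (fun ψ => ∀ P ∈ S, ψ ∈ Ch m (cof m P.1)), F ψ := by
    intro hmt S hS F
    rw [← hset hmt S hS, ← finsum_mem_eq_finite_toFinset_sum F
      (hUf.subset (Ch_mono (show m ≤ m ⊔ qu m S from le_sup_left))), sup_eq_right.2 (hsub S hS)]
  have hTf : {ψ | ψ ∈ Ch m m ∧ ∀ P ∈ pf m, ψ ∉ Ch m (cof m P.1)}.Finite :=
    hUf.subset fun ψ h => h.1
  have hTfs : hTf.toFinset =
      hUf.toFinset.filter (fun ψ => ∀ P ∈ pf m, ¬ ψ ∈ Ch m (cof m P.1)) := by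
    ext ψ
    rw [Set.Finite.mem_toFinset, Finset.mem_filter, Set.Finite.mem_toFinset]
    rfl
  refine ⟨hPf, ?_, ?_⟩
  · intro hmt F
    have hbij := bij_Pr' (K := K) hm hmt
    rw [finsum_mem_eq_of_bijOn (fun χ : RCC K => χ.ψ) hbij (g := F) (fun χ _ => rfl),
      finsum_mem_eq_finite_toFinset_sum _ hTf, hTfs,
      incl_excl hUf.toFinset (pf m) (fun P ψ => ψ ∈ Ch m (cof m P.1)) F]
    refine Finset.sum_congr rfl fun S hS => ?_
    rw [hsumC hmt S (Finset.mem_powerset.1 hS)]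
  · intro k q F hmk hkq hF
    have hk : k ≠ ⊥ := by
      rintro rfl
      exact hm (by rw [hmk, Ideal.bot_mul])
    have hq : q ≠ ⊥ := by
      rintro rfl
      exact hm (by rw [hmk, Ideal.mul_bot])
    obtain ⟨-, -, -, hQ⟩ := pf_QUO K k hk
    obtain ⟨hQ1, hQ2, hQ3, -⟩ := hQ q hq hkq
    have hsubk : pf k ⊆ pf m := fun P hP => by
      rw [hmk]
      exact (hQ2 P).2 (Or.inl hP)
    by_cases hmt : m = ⊤
    · have hk1 : k = ⊤ := by
        rw [eq_top_iff, ← hmt, hmk]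
        exact Ideal.mul_le_right.trans' (by rw [mul_comm])
      have hpk : pf k = ∅ := by
        rw [Finset.eq_empty_iff_forall_notMem]
        intro P hP
        have := (mem_pf hk P).1 hP
        rw [hk1, top_le_iff] at this
        exact P.2.1.ne_top this
      refine ⟨?_, fun h => absurd hmt h⟩
      rw [hpk, Finset.powerset_empty, Finset.sum_singleton, Finset.card_empty, pow_zero, one_mul]
      exact finsum_nonneg fun ψ => finsum_nonneg fun _ => hF ψ
    · have hsum : ∑ S ∈ (pf k).powerset, (-1 : ℝ) ^ S.card *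
          ∑ᶠ ψ ∈ Ch m (qu k S * q), F ψ =
          ∑ ψ ∈ hUf.toFinset with (∀ P ∈ pf k, ¬ ψ ∈ Ch m (cof m P.1)), F ψ := by
        rw [incl_exclR hUf.toFinset (pf k) (fun P ψ => ψ ∈ Ch m (cof m P.1)) F]
        refine Finset.sum_congr rfl fun S hS => ?_
        rw [← (hQ3 S (Finset.mem_powerset.1 hS)).1, ← hmk,
          hsumR hmt S ((Finset.mem_powerset.1 hS).trans hsubk)]
      refine ⟨?_, fun _ => ?_⟩
      · rw [hsum]
        exact Finset.sum_nonneg fun ψ _ => hF ψ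
      · have hbij := bij_Pr' (K := K) hm hmt
        rw [hsum, finsum_mem_eq_of_bijOn (fun χ : RCC K => χ.ψ) hbij (g := F) (fun χ _ => rfl),
          finsum_mem_eq_finite_toFinset_sum _ hTf, hTfs]
        refine Finset.sum_le_sum_of_subset_of_nonneg ?_ fun ψ _ _ => hF ψ
        intro ψ hψ
        rw [Finset.mem_filter] at hψ ⊢
        exact ⟨hψ.1, fun P hP => hψ.2 P (hsubk hP)⟩

end Pool.Agent.H37.HH
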