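import Pool.Agent.H37.HH.QFO

/-!
# Half of all, row NPR: the number of the primitive characters
-/

set_option autoImplicit false

open NumberField Complex Filter Topology MeasureTheory
open scoped ContDiff nonZeroDivisors

namespace Pool.Agent.H37.HH

open Pool.Agent.H33.HH Pool.Agent.H28.RC Pool.Agent.H37.CV
open Pool.Agent.H3.CV (nm_idS mem_pf idS_ne idS_dvd idS_le idS_union fin_pf)

variable {K : Type} [Field K] [NumberField K]

theorem le_of_idS {S : Finset (PrI K)} {P : PrI K} (h : P ∈ S) : idS S ≤ P.1 := by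
  unfold idS
  exact Ideal.le_of_dvd (Finset.dvd_prod_of_mem (fun P : PrI K => P.1) h)

theorem idS_inj {S T : Finset (PrI K)} (h : idS S = idS T) : S = T := by
  ext P
  constructor
  · intro hP
    exact idS_le (h ▸ le_of_idS hP)
  · intro hP
    exact idS_le (h ▸ le_of_idS hP)

theorem qu_inj {f : Ideal (𝓞 K)} (hf : f ≠ ⊥) {S T : Finset (PrI K)} (hS : S ⊆ pf f)
    (hT : T ⊆ pf f) (h : qu f S = qu f T) : S = T := by
  have h1 := qu_spec (idS_dvd_of hf hS)
  have h2 := qu_spec (idS_dvd_of hf hT)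
  have h3 : qu f T ≠ 0 := by
    intro h3
    exact hf (by rw [h2, h3, mul_zero]; rfl)
  rw [h] at h1
  exact idS_inj (mul_right_cancel₀ h3 (h1.symm.trans h2))

/-- the number of the characters, in terms of Euler's function -/
theorem nc_eq (hNCE : T_NCE) (hUCW : T_UCW) (hPHN : T_PHN) (hNRM : T_NRM) [IQ K]
    {m d : Ideal (𝓞 K)} (hm : m ≠ ⊥) (hmd : m ≤ d) :
    (nc m d : ℝ) = hc K / wu K * ph d * wn d := by
  have : IsTotallyComplex K := (hNRM K).1
  have hd : d ≠ ⊥ := by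
    rintro rfl
    exact hm (le_bot_iff.1 hmd)
  have h5 : (nc m d : ℝ) * uc d = hc K * ph d := by
    have h6 := hNCE K m d hm hmd
    rw [← ((hPHN K).1 d hd).1, hc]
    exact_mod_cast h6
  obtain ⟨h6, h7, -, -⟩ := hUCW K d
  have h8 : (0 : ℝ) < uc d := by exact_mod_cast h6
  have h9 : 0 < wu K := (hNRM K).2.1
  rw [← h7] at h9
  have h11 : (0 : ℝ) < wn d := (mul_pos_iff_of_pos_left h8).1 h9
  rw [← h7, eq_comm]
  field_simp
  linarith

theorem pf_NPR (hIEX : T_IEX) (hNCE : T_NCE) (hUCW : T_UCW) (hPHN : T_PHN) (hOR : T_OR)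
    (hNRM : T_NRM) : Pool.Agent.H33.HH.T_NPR := by
  classical
  intro K _ _ _
  have : IsTotallyComplex K := (hNRM K).1
  have hBf : {I : Ideal (𝓞 K) | Ideal.absNorm I ≤ 4}.Finite :=
    Ideal.finite_setOfPred_absNorm_le (S := 𝓞 K) 4
  obtain ⟨g, hg⟩ : ∃ g : Ideal (𝓞 K) → ℝ,
      g = fun d => |hc K / wu K * ph d * ((wn d : ℝ) - 1)| := ⟨_, rfl⟩
  have hg0 : ∀ d, 0 ≤ g d := fun d => by
    rw [hg]
    exact abs_nonneg _
  have hgB : ∀ d, d ∉ hBf.toFinset → g d = 0 := by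
    intro d hd
    rw [Set.Finite.mem_toFinset] at hd
    have h1 : 4 < nm d := by
      unfold nm
      have : ¬ Ideal.absNorm d ≤ 4 := hd
      push Not at this
      exact_mod_cast this
    rw [hg]
    simp only
    rw [(hUCW K d).2.2.2 h1]
    simp
  refine ⟨∑ d ∈ hBf.toFinset, g d, Finset.sum_nonneg fun d _ => hg0 d, ?_⟩
  intro f hf hft
  obtain ⟨hfin, h1, -⟩ := hIEX K f hf
  have h2 := h1 hft (fun _ => 1)
  have h3 : (∑ᶠ χ ∈ Pr K f, (1 : ℂ)) = (((Pr K f).ncard : ℝ) : ℂ) := by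
    rw [finsum_mem_eq_finite_toFinset_sum _ hfin, Finset.sum_const,
      Set.ncard_eq_toFinset_card _ hfin]
    simp
  have h4 : ∀ S ∈ (pf f).powerset, (∑ᶠ ψ ∈ Ch f (qu f S), (1 : ℂ)) =
      ((hc K / wu K * ph (qu f S) * wn (qu f S) : ℝ) : ℂ) := by
    intro S hS
    have h5 := le_qu (idS_dvd_of hf (Finset.mem_powerset.1 hS))
    have h6 := (hOR K f (qu f S) hf h5).1
    rw [finsum_mem_eq_finite_toFinset_sum _ h6, Finset.sum_const,
      ← nc_eq hNCE hUCW hPHN hNRM hf h5, nc, Set.ncard_eq_toFinset_card _ h6]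
    simp
  have h5 : ((Pr K f).ncard : ℝ) = ∑ S ∈ (pf f).powerset, (-1 : ℝ) ^ S.card *
      (hc K / wu K * ph (qu f S) * wn (qu f S)) := by
    have h6 : ((((Pr K f).ncard : ℝ)) : ℂ) = ((∑ S ∈ (pf f).powerset, (-1 : ℝ) ^ S.card *
      (hc K / wu K * ph (qu f S) * wn (qu f S)) : ℝ) : ℂ) := by
      rw [← h3, h2, Complex.ofReal_sum]
      refine Finset.sum_congr rfl fun S hS => ?_
      rw [h4 S hS]
      push_cast
      rfl
    exact Complex.ofReal_injective h6
  have h6 : ((Pr K f).ncard : ℝ) - hc K / wu K * phs f = ∑ S ∈ (pf f).powerset,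
      (-1 : ℝ) ^ S.card * (hc K / wu K * ph (qu f S) * ((wn (qu f S) : ℝ) - 1)) := by
    rw [h5, phs, Finset.mul_sum, ← Finset.sum_sub_distrib]
    refine Finset.sum_congr rfl fun S _ => ?_
    ring
  rw [h6]
  refine (Finset.abs_sum_le_sum_abs _ _).trans ?_
  have h7 : ∀ S ∈ (pf f).powerset,
      |(-1 : ℝ) ^ S.card * (hc K / wu K * ph (qu f S) * ((wn (qu f S) : ℝ) - 1))| =
        g (qu f S) := by
    intro S _
    rw [abs_mul, abs_pow, abs_neg, abs_one, one_pow, one_mul, hg]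
  rw [Finset.sum_congr rfl h7]
  have hinj : Set.InjOn (qu f) ((pf f).powerset : Set (Finset (PrI K))) := by
    intro S hS T hT h
    exact qu_inj hf (Finset.mem_powerset.1 hS) (Finset.mem_powerset.1 hT) h
  have h8 : ∑ S ∈ (pf f).powerset, g (qu f S) = ∑ d ∈ (pf f).powerset.image (qu f), g d := by
    rw [Finset.sum_image hinj]
  rw [h8]
  have h9 : ∑ d ∈ (pf f).powerset.image (qu f), g d =
      ∑ d ∈ (pf f).powerset.image (qu f) ∩ hBf.toFinset, g d := by
    refine (Finset.sum_subset Finset.inter_subset_left fun d hd hd' => ?_).symm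
    refine hgB d fun h => hd' (Finset.mem_inter.2 ⟨hd, h⟩)
  rw [h9]
  exact Finset.sum_le_sum_of_subset_of_nonneg Finset.inter_subset_right fun d _ _ => hg0 d

end Pool.Agent.H37.HH
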