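import Pool.Agent.H37.HH.QFO

/-!
# Half of all, rows ORH and POS: orthogonality, the upper bound for the mollified central values
-/

set_option autoImplicit false

open NumberField Complex Filter Topology MeasureTheory
open scoped ContDiff nonZeroDivisors

namespace Pool.Agent.H37.HH

open Pool.Agent.H33.HH Pool.Agent.H28.RC Pool.Agent.H37.CV

theorem pf_ORH (hOR : T_OR) (hNCE : T_NCE) (hUCW : T_UCW) (hKAP : T_KAP) (hPHN : T_PHN)
    (hNRM : T_NRM) : Pool.Agent.H33.HH.T_ORH := by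
  intro K _ _ _ m d hm hmd
  have : IsTotallyComplex K := (hNRM K).1
  have hd : d ≠ ⊥ := by
    rintro rfl
    exact hm (le_bot_iff.1 hmd)
  refine ⟨(hOR K m d hm hmd).1, fun I J hI hJ hIm hJm => ?_⟩
  obtain ⟨h1, h2⟩ := (hOR K m d hm hmd).2.2 I J hI hJ hIm hJm
  obtain ⟨h3, h4⟩ := hKAP K m d I J hm hmd hI hJ hIm hJm
  by_cases h : Rl m d I J
  · rw [h1 h, h3 h]
    have h5 : (nc m d : ℝ) * uc d = hc K * ph d := by
      have h6 := hNCE K m d hm hmd
      rw [← ((hPHN K).1 d hd).1, hc]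
      exact_mod_cast h6
    obtain ⟨h6, h7, -, -⟩ := hUCW K d
    have h8 : (0 : ℝ) < uc d := by exact_mod_cast h6
    have h9 : 0 < wu K := (hNRM K).2.1
    have h10 : (nc m d : ℝ) = hc K * ph d / wu K * wn d := by
      rw [← h7, eq_comm]
      have h11 : (0 : ℝ) < wn d := by
        rw [← h7] at h9
        exact (mul_pos_iff_of_pos_left h8).1 h9
      field_simp
      linarith
    rw [← h10]
    push_cast
    rfl
  · rw [h2 h, h4 h]
    simp

theorem pf_POS (hPSQ : T_PSQ) (hBQC : T_BQC) : Pool.Agent.H33.HH.T_POS := by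
  intro K _ _ _ P y Z G k q hG hy hZ hk hq hqP hkqt
  obtain ⟨h1, h2, h3, h4⟩ := hBQC K P y Z G hG hy hZ
  have hcop : ∀ n : Ideal (𝓞 K), Cp P n → n ⊔ k = ⊤ := by
    intro n hn
    by_contra h
    obtain ⟨M, hM, hle⟩ := Ideal.exists_le_maximal _ h
    have hkM : k ≤ M := le_sup_right.trans hle
    have hMb : M ≠ ⊥ := by
      rintro rfl
      exact hk.1 (le_bot_iff.1 hkM)
    have h5 := hn ⟨M, hM.isPrime, hMb⟩ (le_sup_left.trans hle)
    have h6 := hk.2 ⟨M, hM.isPrime, hMb⟩ hkM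
    linarith
  have h5 := hPSQ K k q (cfm P y Z G) hk.1 hq (by rw [sup_comm]; exact hcop q hqP) hkqt h1
    fun n hn => ⟨(h2 n hn).1, hcop n (h2 n hn).2.1⟩
  have h6 : ∀ χ : RCC K, Bv P y Z G χ.ψ = ∑ᶠ n : Ideal (𝓞 K), (cfm P y Z G n : ℂ) * χ.ψ n :=
    fun χ => h3 χ.ψ χ.map_mul
  simp only [h6, h4]
  exact h5

end Pool.Agent.H37.HH
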