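import Pool.Agent.H37.HH.QFO

/-!
# Half of all, row PSQ: the upper bound by positivity
-/

set_option autoImplicit false

open NumberField Complex Filter Topology MeasureTheory
open scoped ContDiff nonZeroDivisors

namespace Pool.Agent.H37.HH

open Pool.Agent.H33.HH Pool.Agent.H28.RC Pool.Agent.H37.CV

theorem pf_PSQ (hQFO : T_QFO) (hIEX : T_IEX) (hPHN : T_PHN) (hNRM : T_NRM) :
    Pool.Agent.H33.HH.T_PSQ := by
  intro K _ _ _ k q c hk hq hkq hkqt hc0 hcn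
  have : IsTotallyComplex K := (hNRM K).1
  have hwu : 0 < wu K := (hNRM K).2.1
  have hhc : 0 < hc K := hc_pos
  have hphq : 0 < ph q := ph_pos hPHN hq
  have hnm : ph q ≤ nm q := ((hPHN K).1 q hq).2.2
  obtain ⟨D, hD⟩ : ∃ D : Finset (Ideal (𝓞 K) × Ideal (𝓞 K)), D = (fin_pairs hq).toFinset :=
    ⟨_, rfl⟩
  have hDm : ∀ p, p ∈ D ↔ p.1 * p.2 = q := by
    intro p
    rw [hD, Set.Finite.mem_toFinset]
    rfl
  obtain ⟨F, hF⟩ : ∃ F : Ideal (𝓞 K) × Ideal (𝓞 K) → (Ideal (𝓞 K) → ℂ) → ℝ,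
      F = fun p ψ => ‖∑ᶠ n : Ideal (𝓞 K), (c (p.1 * n) : ℂ) * ψ n‖ ^ 2 := ⟨_, rfl⟩
  have hF0 : ∀ p ψ, 0 ≤ F p ψ := fun p ψ => by
    rw [hF]
    exact sq_nonneg _
  have hp2 : ∀ p ∈ D, p.2 ≠ ⊥ ∧ q ≤ p.2 := by
    intro p hp
    rw [hDm] at hp
    refine ⟨fun h1 => hq (by rw [← hp, h1, Ideal.mul_bot]), ?_⟩
    rw [← hp]
    exact Ideal.mul_le_right
  have hquo : ∀ S ∈ (pf k).powerset, k ≤ qu k S ∧ qu k S ≠ ⊥ := by
    intro S hS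
    obtain ⟨-, h2, -⟩ := pf_QUO K k hk
    obtain ⟨-, h3, h4, -⟩ := h2 S (Finset.mem_powerset.1 hS)
    exact ⟨h3, h4⟩
  have hterm : ∀ S ∈ (pf k).powerset, (-1 : ℝ) ^ S.card * ph (qu k S) * QQ (qu k S * q) c =
      ∑ p ∈ D, (wu K / (hc K * ph p.2)) * ((-1 : ℝ) ^ S.card *
        ∑ᶠ ψ ∈ Ch (k * p.2) (qu k S * p.2), F p ψ) := by
    intro S hS
    obtain ⟨h1, h2⟩ := hquo S hS
    rw [hQFO K k (qu k S) q c hk h1 hq hkq hc0 hcn,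
      finsum_mem_eq_finite_toFinset_sum _ (fin_pairs hq), ← hD, Finset.mul_sum]
    refine Finset.sum_congr rfl fun p hp => ?_
    have h3 : qu k S ⊔ p.2 = ⊤ := by
      rw [eq_top_iff, ← hkq]
      exact sup_le_sup h1 (hp2 p hp).2
    rw [(hPHN K).2.1 _ _ h2 (hp2 p hp).1 h3, hF]
    have h4 : ph (qu k S) ≠ 0 := (ph_pos hPHN h2).ne'
    have h5 : ph p.2 ≠ 0 := (ph_pos hPHN (hp2 p hp).1).ne'
    field_simp
  have hnn : ∀ p ∈ D, 0 ≤ ∑ S ∈ (pf k).powerset, (-1 : ℝ) ^ S.card *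
      ∑ᶠ ψ ∈ Ch (k * p.2) (qu k S * p.2), F p ψ := by
    intro p hp
    have h3 : k ⊔ p.2 = ⊤ := by
      rw [eq_top_iff, ← hkq]
      exact sup_le_sup_left (hp2 p hp).2 k
    exact ((hIEX K (k * p.2) (mul_ne_zero hk (hp2 p hp).1)).2.2 k p.2 (F p) rfl h3
      (hF0 p)).1
  have htot : ∑ S ∈ (pf k).powerset, (-1 : ℝ) ^ S.card * ph (qu k S) * QQ (qu k S * q) c =
      ∑ p ∈ D, (wu K / (hc K * ph p.2)) * ∑ S ∈ (pf k).powerset, (-1 : ℝ) ^ S.card *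
        ∑ᶠ ψ ∈ Ch (k * p.2) (qu k S * p.2), F p ψ := by
    rw [Finset.sum_congr rfl hterm, Finset.sum_comm]
    refine Finset.sum_congr rfl fun p _ => ?_
    rw [Finset.mul_sum]
  have htop : (⊤, q) ∈ D := (hDm _).2 (Ideal.top_mul q)
  have h1 : (wu K / (hc K * ph q)) * ∑ᶠ χ ∈ Pr K (k * q),
      ‖∑ᶠ n : Ideal (𝓞 K), (c n : ℂ) * χ.ψ n‖ ^ 2 ≤
      ∑ S ∈ (pf k).powerset, (-1 : ℝ) ^ S.card * ph (qu k S) * QQ (qu k S * q) c := by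
    rw [htot]
    refine le_trans ?_ (Finset.single_le_sum (f := fun p : Ideal (𝓞 K) × Ideal (𝓞 K) =>
      (wu K / (hc K * ph p.2)) * ∑ S ∈ (pf k).powerset, (-1 : ℝ) ^ S.card *
        ∑ᶠ ψ ∈ Ch (k * p.2) (qu k S * p.2), F p ψ) (fun p hp => ?_) htop)
    · refine mul_le_mul_of_nonneg_left ?_ (by positivity)
      have h2 := ((hIEX K (k * q) (mul_ne_zero hk hq)).2.2 k q (F (⊤, q)) rfl hkq
        (hF0 _)).2 hkqt
      refine le_trans (le_of_eq ?_) h2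
      rw [hF]
      simp only [Ideal.top_mul]
    · have h3 := ph_pos hPHN (hp2 p hp).1
      exact mul_nonneg (by positivity) (hnn p hp)
  have h2 : 0 ≤ ∑ᶠ χ ∈ Pr K (k * q), ‖∑ᶠ n : Ideal (𝓞 K), (c n : ℂ) * χ.ψ n‖ ^ 2 :=
    finsum_nonneg fun χ => finsum_nonneg fun _ => sq_nonneg _
  have h3 : 0 < nm q := hphq.trans_le hnm
  calc ∑ᶠ χ ∈ Pr K (k * q), ‖∑ᶠ n : Ideal (𝓞 K), (c n : ℂ) * χ.ψ n‖ ^ 2
      ≤ (nm q / ph q) * ∑ᶠ χ ∈ Pr K (k * q), ‖∑ᶠ n : Ideal (𝓞 K), (c n : ℂ) * χ.ψ n‖ ^ 2 := by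
        refine le_mul_of_one_le_left h2 ?_
        rw [le_div_iff₀ hphq, one_mul]
        exact hnm
    _ = (hc K * nm q / wu K) * ((wu K / (hc K * ph q)) * ∑ᶠ χ ∈ Pr K (k * q),
          ‖∑ᶠ n : Ideal (𝓞 K), (c n : ℂ) * χ.ψ n‖ ^ 2) := by
        have h4 : wu K ≠ 0 := hwu.ne'
        have h5 : hc K ≠ 0 := hhc.ne'
        have h6 : ph q ≠ 0 := hphq.ne'
        field_simp
    _ ≤ _ := mul_le_mul_of_nonneg_left h1 (by positivity)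

end Pool.Agent.H37.HH
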