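import Pool.Agent.H37.HH.QUO

/-!
# Half of all, row QFO: the quadratic form opened
-/

set_option autoImplicit false

open NumberField Complex Filter Topology MeasureTheory
open scoped ContDiff nonZeroDivisors

namespace Pool.Agent.H37.HH

open Pool.Agent.H33.HH Pool.Agent.H28.RC Pool.Agent.H37.CV

variable {K : Type} [Field K] [NumberField K]

theorem hc_pos : 0 < hc K := by
  unfold hc
  have : 0 < classNumber K := Fintype.card_pos
  exact_mod_cast this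

theorem ph_pos (hPHN : T_PHN) {f : Ideal (𝓞 K)} (hf : f ≠ ⊥) : 0 < ph f := ((hPHN K).1 f hf).2.1

open scoped Classical in
/-- the cofactor -/
noncomputable def dv (g n : Ideal (𝓞 K)) : Ideal (𝓞 K) :=
  if h : ∃ D, n = g * D then h.choose else ⊤

theorem dv_spec {g n : Ideal (𝓞 K)} (h : g ∣ n) : n = g * dv g n := by
  have h1 : ∃ D, n = g * D := h
  unfold dv
  rw [dif_pos h1]
  exact h1.choose_spec

theorem dv_eq {g n D : Ideal (𝓞 K)} (hg : g ≠ ⊥) (h : n = g * D) : dv g n = D := by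
  have h1 := dv_spec (g := g) (n := n) ⟨D, h⟩
  exact mul_left_cancel₀ (show g ≠ 0 from hg) (h1.symm.trans h)

theorem sup_mul_top' {I a b : Ideal (𝓞 K)} (h1 : I ⊔ a = ⊤) (h2 : I ⊔ b = ⊤) :
    I ⊔ a * b = ⊤ := by
  rw [Ideal.sup_mul_eq_of_coprime_left h1]
  exact h2

/-- the gcd of `n` and `q`, with the cofactor of `q` -/
noncomputable def gf (q n : Ideal (𝓞 K)) : Ideal (𝓞 K) × Ideal (𝓞 K) := (n ⊔ q, dv (n ⊔ q) q)

theorem gf_mul (q n : Ideal (𝓞 K)) : (gf q n).1 * (gf q n).2 = q :=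
  (dv_spec (Ideal.dvd_iff_le.2 (le_sup_right : q ≤ n ⊔ q))).symm

theorem gf_eq {q n : Ideal (𝓞 K)} (hq : q ≠ ⊥) {p : Ideal (𝓞 K) × Ideal (𝓞 K)}
    (hp : p.1 * p.2 = q) (h : n ⊔ q = p.1) : gf q n = p := by
  have hp1 : p.1 ≠ ⊥ := by
    intro h1
    exact hq (by rw [← hp, h1, Ideal.bot_mul])
  refine Prod.ext h ?_
  show dv (n ⊔ q) q = p.2
  rw [h]
  exact dv_eq hp1 hp.symm

/-- the pairs with product `q` -/
theorem fin_pairs {q : Ideal (𝓞 K)} (hq : q ≠ ⊥) :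
    {p : Ideal (𝓞 K) × Ideal (𝓞 K) | p.1 * p.2 = q}.Finite := by
  have h1 : {I : Ideal (𝓞 K) | I ∣ q}.Finite := by
    have h2 := Ideal.finite_setOfPred_absNorm_le (S := 𝓞 K) (Ideal.absNorm q)
    refine h2.subset fun I hI => ?_
    exact Nat.le_of_dvd (Nat.pos_of_ne_zero fun h => hq (Ideal.absNorm_eq_zero_iff.1 h))
      (Ideal.absNorm_dvd_absNorm_of_le (Ideal.dvd_iff_le.1 hI))
  refine (h1.prod h1).subset ?_
  rintro ⟨a, b⟩ h
  exact ⟨⟨b, h.symm⟩, ⟨a, by rw [mul_comm]; exact h.symm⟩⟩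

open scoped Classical in
/-- one divisor -/
theorem QFO_term (hORH : T_ORH) (hKGC : T_KGC) (hPHN : T_PHN) (hNRM : T_NRM) [IQ K]
    {k k' q : Ideal (𝓞 K)} {c : Ideal (𝓞 K) → ℝ} (hk : k ≠ ⊥) (hkk : k ≤ k') (hq : q ≠ ⊥)
    (hc0 : (Function.support c).Finite) (hcn : ∀ n, c n ≠ 0 → n ≠ ⊥ ∧ n ⊔ k = ⊤)
    {p : Ideal (𝓞 K) × Ideal (𝓞 K)} (hp : p.1 * p.2 = q) :
    (wu K / (hc K * ph (k' * p.2))) * ∑ᶠ ψ ∈ Ch (k * p.2) (k' * p.2),
      ‖∑ᶠ n : Ideal (𝓞 K), (c (p.1 * n) : ℂ) * ψ n‖ ^ 2 =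
    ∑ n₁ ∈ hc0.toFinset with gf q n₁ = p, ∑ n₂ ∈ hc0.toFinset with gf q n₂ = p,
      (kap (k' * q) n₁ n₂ : ℝ) * c n₁ * c n₂ := by
  have hp1 : p.1 ≠ ⊥ := by
    intro h1
    exact hq (by rw [← hp, h1, Ideal.bot_mul])
  have hp2 : p.2 ≠ ⊥ := by
    intro h1
    exact hq (by rw [← hp, h1, Ideal.mul_bot])
  have hk' : k' ≠ ⊥ := by
    rintro rfl
    exact hk (le_bot_iff.1 hkk)
  have hm : k * p.2 ≠ ⊥ := mul_ne_zero hk hp2
  have hd : k' * p.2 ≠ ⊥ := mul_ne_zero hk' hp2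
  have hmd : k * p.2 ≤ k' * p.2 := Ideal.mul_mono_left hkk
  obtain ⟨hfin, hor⟩ := hORH K (k * p.2) (k' * p.2) hm hmd
  set N := hc0.toFinset.filter fun n => gf q n = p with hN
  -- the elements of `N`
  have hNp : ∀ n ∈ N, n = p.1 * dv p.1 n ∧ dv p.1 n ≠ ⊥ ∧ dv p.1 n ⊔ k * p.2 = ⊤ := by
    intro n hn
    rw [hN, Finset.mem_filter, Set.Finite.mem_toFinset] at hn
    obtain ⟨h1, h2⟩ := hn
    obtain ⟨h3, h4⟩ := hcn n h1
    have h5 : n ⊔ q = p.1 := congrArg Prod.fst h2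
    have h6 : n = p.1 * dv p.1 n := by
      refine dv_spec (Ideal.dvd_iff_le.2 ?_)
      rw [← h5]
      exact le_sup_left
    have h7 : dv p.1 n ⊔ p.2 = ⊤ := by
      have h8 : p.1 * (dv p.1 n ⊔ p.2) = p.1 * ⊤ := by
        rw [Ideal.mul_sup, ← h6, hp, h5, Ideal.mul_top]
      exact mul_left_cancel₀ (show p.1 ≠ 0 from hp1) h8
    refine ⟨h6, ?_, ?_⟩
    · intro h8
      rw [h8, Ideal.mul_bot] at h6
      exact h3 h6
    · refine sup_mul_top' ?_ h7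
      rw [eq_top_iff, ← h4]
      refine sup_le_sup_right ?_ k
      conv_lhs => rw [h6]
      exact Ideal.mul_le_right
  -- the inner sum
  have hS : ∀ ψ ∈ Ch (k * p.2) (k' * p.2), ∑ᶠ n : Ideal (𝓞 K), (c (p.1 * n) : ℂ) * ψ n =
      ∑ n ∈ N, (c n : ℂ) * ψ (dv p.1 n) := by
    intro ψ hψ
    have hinj : Set.InjOn (dv p.1) (N : Set (Ideal (𝓞 K))) := by
      intro a ha b hb hab
      rw [(hNp a ha).1, (hNp b hb).1, hab]
    have h1 : ∑ᶠ n : Ideal (𝓞 K), (c (p.1 * n) : ℂ) * ψ n =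
        ∑ n ∈ N.image (dv p.1), (c (p.1 * n) : ℂ) * ψ n := by
      refine finsum_eq_sum_of_support_subset _ ?_
      intro n hn
      rw [Function.mem_support] at hn
      have h2 : c (p.1 * n) ≠ 0 := by
        intro h
        exact hn (by rw [h]; simp)
      have h3 : ψ n ≠ 0 := by
        intro h
        exact hn (by rw [h]; simp)
      have h4 : n ⊔ k * p.2 = ⊤ := by
        by_contra h
        exact h3 (hψ.1.zero n h)
      have h5 : n ⊔ p.2 = ⊤ := by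
        rw [eq_top_iff, ← h4]
        exact sup_le_sup_left Ideal.mul_le_right n
      rw [Finset.coe_image]
      refine ⟨p.1 * n, ?_, dv_eq hp1 rfl⟩
      rw [Finset.mem_coe, hN, Finset.mem_filter, Set.Finite.mem_toFinset]
      refine ⟨h2, gf_eq hq hp ?_⟩
      rw [← hp, ← Ideal.mul_sup, h5, Ideal.mul_top]
    rw [h1, Finset.sum_image hinj]
    refine Finset.sum_congr rfl fun n hn => ?_
    rw [← (hNp n hn).1]
  -- the sum over the characters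
  have hmain : ((∑ᶠ ψ ∈ Ch (k * p.2) (k' * p.2),
      ‖∑ᶠ n : Ideal (𝓞 K), (c (p.1 * n) : ℂ) * ψ n‖ ^ 2 : ℝ) : ℂ) =
      ((∑ n₁ ∈ N, ∑ n₂ ∈ N, c n₁ * c n₂ *
        (hc K * ph (k' * p.2) / wu K * kap (k' * p.2) (dv p.1 n₁) (dv p.1 n₂)) : ℝ) : ℂ) := by
    rw [finsum_mem_eq_finite_toFinset_sum _ hfin]
    push_cast
    have h1 : ∀ ψ ∈ hfin.toFinset,
        ((‖∑ᶠ n : Ideal (𝓞 K), (c (p.1 * n) : ℂ) * ψ n‖ : ℝ) : ℂ) ^ 2 =
        ∑ n₁ ∈ N, ∑ n₂ ∈ N, (c n₁ : ℂ) * (c n₂ : ℂ) *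
          (ψ (dv p.1 n₁) * (starRingEnd ℂ) (ψ (dv p.1 n₂))) := by
      intro ψ hψ
      rw [hS ψ ((Set.Finite.mem_toFinset hfin).1 hψ)]
      have h2 : ∀ z : ℂ, ((‖z‖ : ℝ) : ℂ) ^ 2 = z * (starRingEnd ℂ) z := by
        intro z
        rw [Complex.mul_conj, Complex.normSq_eq_norm_sq]
        push_cast
        rfl
      rw [h2, map_sum, Finset.sum_mul_sum]
      refine Finset.sum_congr rfl fun n₁ _ => Finset.sum_congr rfl fun n₂ _ => ?_
      rw [map_mul, Complex.conj_ofReal]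
      ring
    rw [Finset.sum_congr rfl h1, Finset.sum_comm]
    refine Finset.sum_congr rfl fun n₁ hn₁ => ?_
    rw [Finset.sum_comm]
    refine Finset.sum_congr rfl fun n₂ hn₂ => ?_
    rw [← Finset.mul_sum, ← finsum_mem_eq_finite_toFinset_sum _ hfin,
      hor _ _ (hNp n₁ hn₁).2.1 (hNp n₂ hn₂).2.1 (hNp n₁ hn₁).2.2 (hNp n₂ hn₂).2.2]
    push_cast
    ring
  have hmain' := Complex.ofReal_injective hmain
  rw [hmain', Finset.mul_sum]
  refine Finset.sum_congr rfl fun n₁ hn₁ => ?_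
  rw [Finset.mul_sum]
  refine Finset.sum_congr rfl fun n₂ hn₂ => ?_
  have h1 : kap (k' * q) n₁ n₂ = kap (k' * p.2) (dv p.1 n₁) (dv p.1 n₂) := by
    conv_lhs => rw [(hNp n₁ hn₁).1, (hNp n₂ hn₂).1, ← hp]
    exact (hKGC K k' p.2 (dv p.1 n₁) (dv p.1 n₂) (hNp n₁ hn₁).2.1 (hNp n₂ hn₂).2.1).2 p.1 hp1
  rw [h1]
  have h2 : hc K ≠ 0 := hc_pos.ne'
  have h3 : ph (k' * p.2) ≠ 0 := (ph_pos hPHN hd).ne'
  have h4 : wu K ≠ 0 := (hNRM K).2.1.ne'
  field_simp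

open scoped Classical in
theorem pf_QFO (hORH : T_ORH) (hKGC : T_KGC) (hPHN : T_PHN) (hNRM : T_NRM) :
    Pool.Agent.H33.HH.T_QFO := by
  intro K _ _ _ k k' q c hk hkk hq hkq hc0 hcn
  have h1 : QQ (k' * q) c = ∑ n₁ ∈ hc0.toFinset, ∑ n₂ ∈ hc0.toFinset,
      (kap (k' * q) n₁ n₂ : ℝ) * c n₁ * c n₂ := by
    unfold QQ
    rw [← Finset.sum_product' hc0.toFinset hc0.toFinset
      (fun n₁ n₂ => (kap (k' * q) n₁ n₂ : ℝ) * c n₁ * c n₂)]
    refine finsum_eq_sum_of_support_subset _ ?_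
    intro p hp
    rw [Function.mem_support] at hp
    rw [Finset.mem_coe, Finset.mem_product, Set.Finite.mem_toFinset, Set.Finite.mem_toFinset,
      Function.mem_support, Function.mem_support]
    refine ⟨fun h => hp (by rw [h]; ring), fun h => hp (by rw [h]; ring)⟩
  rw [h1, finsum_mem_eq_finite_toFinset_sum _ (fin_pairs hq)]
  have hmap : ∀ n : Ideal (𝓞 K), gf q n ∈ (fin_pairs hq).toFinset := fun n => by
    rw [Set.Finite.mem_toFinset]
    exact gf_mul q n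
  rw [← Finset.sum_fiberwise_of_maps_to (s := hc0.toFinset) (t := (fin_pairs hq).toFinset)
    (g := gf q) (fun n _ => hmap n)]
  refine Finset.sum_congr rfl fun p hp => ?_
  rw [Set.Finite.mem_toFinset] at hp
  rw [QFO_term hORH hKGC hPHN hNRM hk hkk hq hc0 hcn hp]
  refine Finset.sum_congr rfl fun n₁ hn₁ => ?_
  rw [Finset.mem_filter] at hn₁
  rw [Finset.sum_filter]
  refine Finset.sum_congr rfl fun n₂ hn₂ => ?_
  by_cases h2 : gf q n₂ = p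
  · rw [if_pos h2]
  · rw [if_neg h2]
    have h3 : kap (k' * q) n₁ n₂ = 0 := by
      by_contra h4
      have hn1 := (hcn n₁ ((Set.Finite.mem_toFinset hc0).1 hn₁.1)).1
      have hn2 := (hcn n₂ ((Set.Finite.mem_toFinset hc0).1 hn₂)).1
      have h5 := (hKGC K k' q n₁ n₂ hn1 hn2).1 h4
      refine h2 (gf_eq hq hp ?_)
      rw [← h5]
      exact congrArg Prod.fst hn₁.2
    rw [h3]
    simp

end Pool.Agent.H37.HH
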