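import Pool.Agent.H33.HH.TD
import Pool.Agent.H37.HH.QFO

/-!
# Half of all, row SMM: the second moment over the primitive characters
-/

set_option autoImplicit false

open NumberField Complex Filter Topology MeasureTheory
open scoped ContDiff nonZeroDivisors

namespace Pool.Agent.H37.HH

open Pool.Agent.H33.HH Pool.Agent.H28.RC Pool.Agent.H37.CV

variable {K : Type} [Field K] [NumberField K]

theorem fin_NI (b : ℝ) : {I : NI K | nm I.1 < b}.Finite := by
  have h1 := Ideal.finite_setOfPred_absNorm_le (S := 𝓞 K) ⌊b⌋₊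
  refine Set.Finite.of_finite_image (f := fun I : NI K => I.1) (h1.subset ?_)
    Subtype.val_injective.injOn
  rintro _ ⟨I, hI, rfl⟩
  exact Nat.le_floor (le_of_lt hI)

open scoped Classical in
theorem sumC_eq (P b : ℝ) (f : Ideal (𝓞 K) → ℝ) (h : ∀ I, b ≤ nm I → f I = 0) :
    sumC P f = ∑ I ∈ (fin_NI (K := K) b).toFinset, if Cp P I.1 then f I.1 else 0 := by
  unfold sumC
  refine tsum_eq_sum fun I hI => ?_
  rw [Set.Finite.mem_toFinset] at hI
  have h1 : b ≤ nm I.1 := not_lt.1 hI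
  rw [h _ h1]
  simp

theorem rk_nonneg [IQ K] (hNRM : T_NRM) (P : ℝ) : 0 ≤ rk K P := by
  unfold rk rh
  have h1 : 0 < wu K := (hNRM K).2.1
  have h2 : 0 < hc K := hc_pos
  refine mul_nonneg ?_ (Finset.prod_nonneg fun p _ => ?_)
  · exact div_nonneg (by positivity) (mul_nonneg h1.le (Real.sqrt_nonneg _))
  · have h3 : 1 ≤ np p := by
      unfold np nm
      have : Ideal.absNorm p.1 ≠ 0 := fun h => p.2.2 (Ideal.absNorm_eq_zero_iff.1 h)
      exact_mod_cast Nat.one_le_iff_ne_zero.2 this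
    have h4 : 1 / np p ≤ 1 := by
      rw [div_le_one (by linarith)]
      exact h3
    linarith

open scoped Classical in
theorem pf_SMM (h1 : T_POS) (h2 : T_SMF) (h3 : T_SEL) (h5 : T_PHN)
    (h6 : T_PHM) (hNRM : T_NRM) : Pool.Agent.H33.HH.T_SMM := by
  intro K _ _ _ P W G k θ e hSP hW hW1 hG hk hPar ε hε
  have hwu : 0 < wu K := (hNRM K).2.1
  have hhc : 0 < hc K := hc_pos
  have hquo : ∀ S ∈ (pf k).powerset, Sm' P (qu k S) := by
    intro S hS
    obtain ⟨-, hq2, -⟩ := pf_QUO K k hk.1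
    obtain ⟨-, -, hq3, hq4, -⟩ := hq2 S (Finset.mem_powerset.1 hS)
    exact ⟨hq3, fun p hp => hk.2 p (hq4 p hp)⟩
  have hphp : ∀ S ∈ (pf k).powerset, 0 < ph (qu k S) := fun S hS =>
    ph_pos h5 (hquo S hS).1
  obtain ⟨T, hT⟩ : ∃ T : ℝ, T = ∑ S ∈ (pf k).powerset, ph (qu k S) := ⟨_, rfl⟩
  have hT0 : 0 ≤ T := by
    rw [hT]
    exact Finset.sum_nonneg fun S hS => (hphp S hS).le
  obtain ⟨ε', hε'⟩ : ∃ ε' : ℝ, ε' = ε / (hc K / wu K * T + 1) := ⟨_, rfl⟩
  have hden : 0 < hc K / wu K * T + 1 := by positivity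
  have hε'0 : 0 < ε' := by
    rw [hε']
    positivity
  have hSM : ∀ S ∈ (pf k).powerset, ∃ Q₀ : ℝ, ∀ Q : ℝ, Q₀ ≤ Q →
      |SM P (Q ^ θ) (Q ^ (1 + e)) Q W G (qu k S) - rk K P * W1 W * Q ^ 2 * Vq K P θ Q| ≤
        ε' * Q ^ 2 := fun S hS =>
    h2 K P W G (qu k S) θ e ε' hSP hW hW1 hG (hquo S hS) hPar hε'0
  choose! Q₁ hQ₁ using hSM
  obtain ⟨Q₂, hQ₂⟩ := h3 K P θ ε hPar.θpos hε
  obtain ⟨δ, hδ, hlow⟩ := hW.low
  obtain ⟨Q₃, hQ₃⟩ : ∃ Q₃ : ℝ, Q₃ = ∑ S ∈ (pf k).powerset, |Q₁ S| := ⟨_, rfl⟩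
  refine ⟨max (max 1 Q₂) (max Q₃ (2 / δ)), (le_max_left _ _).trans (le_max_left _ _),
    fun Q hQ => ?_⟩
  have hQ1 : 1 ≤ Q := ((le_max_left _ _).trans (le_max_left _ _)).trans hQ
  have hQ2 : Q₂ ≤ Q := ((le_max_right _ _).trans (le_max_left _ _)).trans hQ
  have hQ3 : Q₃ ≤ Q := ((le_max_left _ _).trans (le_max_right _ _)).trans hQ
  have hQ4 : 2 / δ ≤ Q := ((le_max_right _ _).trans (le_max_right _ _)).trans hQ
  have hQ0 : 0 < Q := by linarith
  have hQ13 : ∀ S ∈ (pf k).powerset, Q₁ S ≤ Q := by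
    intro S hS
    refine (le_abs_self _).trans (le_trans ?_ hQ3)
    rw [hQ₃]
    exact Finset.single_le_sum (f := fun S => |Q₁ S|) (fun S _ => abs_nonneg _) hS
  have hWz : ∀ I : Ideal (𝓞 K), Q ≤ nm I → W (nm I / Q) = 0 := by
    intro I hI
    refine hW.high _ ?_
    rw [le_div_iff₀ hQ0, one_mul]
    exact hI
  have hy : 1 ≤ Q ^ θ := Real.one_le_rpow hQ1 hPar.θpos.le
  have hZ : 0 < Q ^ (1 + e) := Real.rpow_pos_of_pos hQ0 _
  -- the bound for every conductor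
  have hM2 : M2 P (Q ^ θ) (Q ^ (1 + e)) Q W G k ≤
      ∑ I ∈ (fin_NI (K := K) Q).toFinset, if Cp P I.1 then W (nm I.1 / Q) *
        ((hc K * nm I.1 / wu K) * ∑ S ∈ (pf k).powerset, (-1) ^ S.card * ph (qu k S) *
          Qf P (Q ^ θ) (Q ^ (1 + e)) G (qu k S * I.1)) else 0 := by
    unfold M2
    rw [sumC_eq P Q _ fun I hI => by rw [hWz I hI, zero_mul]]
    refine Finset.sum_le_sum fun I _ => ?_
    by_cases hC : Cp P I.1
    · rw [if_pos hC, if_pos hC]
      by_cases hWI : W (nm I.1 / Q) = 0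
      · rw [hWI, zero_mul, zero_mul]
      · refine mul_le_mul_of_nonneg_left ?_ (hW.bd _).1
        refine h1 K P (Q ^ θ) (Q ^ (1 + e)) G k I.1 hG hy hZ hk I.2 hC ?_
        intro htop
        have hI1 : I.1 = ⊤ := by
          rw [eq_top_iff, ← htop]
          exact Ideal.mul_le_right
        apply hWI
        refine hlow _ ?_
        have hn1 : nm I.1 = 1 := by
          rw [hI1]
          unfold nm
          rw [Ideal.absNorm_top]
          norm_num
        rw [hn1, div_le_iff₀ hQ0]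
        rw [div_le_iff₀ hδ] at hQ4
        linarith
    · rw [if_neg hC, if_neg hC]
  -- exchange
  have hex : (∑ I ∈ (fin_NI (K := K) Q).toFinset, if Cp P I.1 then W (nm I.1 / Q) *
        ((hc K * nm I.1 / wu K) * ∑ S ∈ (pf k).powerset, (-1) ^ S.card * ph (qu k S) *
          Qf P (Q ^ θ) (Q ^ (1 + e)) G (qu k S * I.1)) else 0) =
      (hc K / wu K) * ∑ S ∈ (pf k).powerset, (-1) ^ S.card * ph (qu k S) *
        SM P (Q ^ θ) (Q ^ (1 + e)) Q W G (qu k S) := by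
    have hSMe : ∀ S : Finset (PrI K), SM P (Q ^ θ) (Q ^ (1 + e)) Q W G (qu k S) =
        ∑ I ∈ (fin_NI (K := K) Q).toFinset, if Cp P I.1 then W (nm I.1 / Q) * nm I.1 *
          Qf P (Q ^ θ) (Q ^ (1 + e)) G (qu k S * I.1) else 0 := by
      intro S
      unfold SM
      exact sumC_eq P Q _ fun I hI => by rw [hWz I hI]; ring
    simp only [hSMe, Finset.mul_sum]
    rw [Finset.sum_comm]
    refine Finset.sum_congr rfl fun I _ => ?_
    by_cases hC : Cp P I.1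
    · simp only [if_pos hC]
      refine Finset.sum_congr rfl fun S _ => ?_
      field_simp
    · simp only [if_neg hC, mul_zero, Finset.sum_const_zero]
  rw [hex] at hM2
  -- the second moment
  obtain ⟨A, hA⟩ : ∃ A : ℝ, A = rk K P * W1 W * Q ^ 2 * Vq K P θ Q := ⟨_, rfl⟩
  have hsum : ∑ S ∈ (pf k).powerset, (-1 : ℝ) ^ S.card * ph (qu k S) *
        SM P (Q ^ θ) (Q ^ (1 + e)) Q W G (qu k S) ≤ phs k * A + T * (ε' * Q ^ 2) := by
    rw [phs, hT, Finset.sum_mul, Finset.sum_mul, ← Finset.sum_add_distrib]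
    refine Finset.sum_le_sum fun S hS => ?_
    have h7 := hQ₁ S hS Q (hQ13 S hS)
    rw [← hA] at h7
    have h8 : (-1 : ℝ) ^ S.card * (SM P (Q ^ θ) (Q ^ (1 + e)) Q W G (qu k S) - A) ≤
        ε' * Q ^ 2 := by
      refine (le_abs_self _).trans ?_
      rw [abs_mul, abs_pow, abs_neg, abs_one, one_pow, one_mul]
      exact h7
    have h9 := mul_le_mul_of_nonneg_left h8 (hphp S hS).le
    linarith
  have hVq := hQ₂ Q hQ2
  have hphs : 0 ≤ phs k := ((h6 K).2.2 k hk.1).1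
  have hrk := rk_nonneg (K := K) hNRM P
  have hfin : phs k * A ≤ (1 + 1 / θ + ε) * (phs k * rk K P * W1 W * Q ^ 2) := by
    rw [hA]
    have h10 : 0 ≤ phs k * rk K P * W1 W * Q ^ 2 := by positivity
    calc phs k * (rk K P * W1 W * Q ^ 2 * Vq K P θ Q)
        = Vq K P θ Q * (phs k * rk K P * W1 W * Q ^ 2) := by ring
      _ ≤ _ := mul_le_mul_of_nonneg_right hVq h10
  refine hM2.trans ?_
  have h11 : (hc K / wu K) * ∑ S ∈ (pf k).powerset, (-1 : ℝ) ^ S.card * ph (qu k S) *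
      SM P (Q ^ θ) (Q ^ (1 + e)) Q W G (qu k S) ≤ (hc K / wu K) *
      ((1 + 1 / θ + ε) * (phs k * rk K P * W1 W * Q ^ 2) + T * (ε' * Q ^ 2)) :=
    mul_le_mul_of_nonneg_left (hsum.trans (by linarith)) (by positivity)
  refine h11.trans ?_
  have h12 : (hc K / wu K) * (T * (ε' * Q ^ 2)) ≤ ε * Q ^ 2 := by
    have h13 : hc K / wu K * T * ε' ≤ ε := by
      rw [hε', mul_div_assoc', div_le_iff₀ hden]
      nlinarith
    calc (hc K / wu K) * (T * (ε' * Q ^ 2)) = (hc K / wu K * T * ε') * Q ^ 2 := by ring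
      _ ≤ _ := mul_le_mul_of_nonneg_right h13 (by positivity)
  unfold A0
  linarith

end Pool.Agent.H37.HH
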