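import Pool.Agent.H33.HH.TD

/-!
# Half of all, row SQN: the sum of the norms
-/

set_option autoImplicit false

open NumberField Complex Filter Topology MeasureTheory
open scoped ContDiff nonZeroDivisors

namespace Pool.Agent.H37.HH

open Pool.Agent.H33.HH Pool.Agent.H28.RC Pool.Agent.H37.CV

variable {K : Type} [Field K] [NumberField K]

theorem fin_cn (P x : ℝ) : {I : Ideal (𝓞 K) | I ≠ ⊥ ∧ Cp P I ∧ nm I ≤ x}.Finite := by
  have h1 := Ideal.finite_setOfPred_absNorm_le (S := 𝓞 K) ⌊x⌋₊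
  refine h1.subset ?_
  rintro I ⟨-, -, hI⟩
  exact Nat.le_floor hI

theorem cn_mono (P : ℝ) : Monotone (cn K P) := by
  intro x y hxy
  unfold cn
  have h1 : {I : Ideal (𝓞 K) | I ≠ ⊥ ∧ Cp P I ∧ nm I ≤ x} ⊆
      {I : Ideal (𝓞 K) | I ≠ ⊥ ∧ Cp P I ∧ nm I ≤ y} := by
    rintro I ⟨h1, h2, h3⟩
    exact ⟨h1, h2, h3.trans hxy⟩
  exact_mod_cast Set.ncard_le_ncard h1 (fin_cn P y)

theorem pf_SQN (h1 : T_CNT) (h2 : T_NS1) : Pool.Agent.H33.HH.T_SQN := by
  intro K _ _ _ P
  obtain ⟨C, hC, hcnt⟩ := h1 K P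
  refine ⟨|rk K P| + 2 * C, by positivity, fun x hx => ?_⟩
  have hx0 : 0 < x := by linarith
  have h3 := h2 K P (fun t => t) (fun _ => 1) (fun t _ => hasDerivAt_id' t)
    continuousOn_const x hx
  rw [h3]
  simp only [one_mul]
  have hE : ∀ t : ℝ, 1 ≤ t → |cn K P t - rk K P * t| ≤ C * t ^ (3 / 4 : ℝ) := hcnt
  have hI1 : IntegrableOn (cn K P) (Set.Ioc 1 x) :=
    ((cn_mono (K := K) P).intervalIntegrable (a := 1) (b := x)).1
  have hI2 : IntegrableOn (fun t : ℝ => rk K P * t) (Set.Ioc 1 x) :=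
    ((continuous_const.mul continuous_id).intervalIntegrable 1 x).1
  have hint : ∫ t in Set.Ioc 1 x, cn K P t = rk K P * ((x ^ 2 - 1) / 2) +
      ∫ t in Set.Ioc 1 x, (cn K P t - rk K P * t) := by
    rw [integral_sub hI1 hI2, integral_const_mul, ← intervalIntegral.integral_of_le hx,
      ← intervalIntegral.integral_of_le hx, integral_id]
    ring
  have hint2 : |∫ t in Set.Ioc 1 x, (cn K P t - rk K P * t)| ≤ C * x ^ (3 / 4 : ℝ) * x := by
    have h4 := norm_setIntegral_le_of_norm_le_const (μ := volume) (s := Set.Ioc 1 x)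
      (f := fun t => cn K P t - rk K P * t) (C := C * x ^ (3 / 4 : ℝ)) (by
        rw [Real.volume_Ioc]
        exact ENNReal.ofReal_lt_top) (by
        intro t ht
        rw [Real.norm_eq_abs]
        refine (hE t ht.1.le).trans ?_
        exact mul_le_mul_of_nonneg_left (Real.rpow_le_rpow (by linarith [ht.1]) ht.2
          (by norm_num)) hC)
    rw [Real.norm_eq_abs, Real.volume_real_Ioc_of_le hx] at h4
    refine h4.trans (mul_le_mul_of_nonneg_left (by linarith) (by positivity))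
  have hxx : x ^ (3 / 4 : ℝ) * x = x ^ (7 / 4 : ℝ) := by
    have h4 : (7 / 4 : ℝ) = 3 / 4 + 1 := by norm_num
    rw [h4, Real.rpow_add hx0, Real.rpow_one]
  have h5 : |x * (cn K P x - rk K P * x)| ≤ C * x ^ (7 / 4 : ℝ) := by
    rw [abs_mul, abs_of_pos hx0, ← hxx]
    calc x * |cn K P x - rk K P * x| ≤ x * (C * x ^ (3 / 4 : ℝ)) :=
          mul_le_mul_of_nonneg_left (hE x hx) hx0.le
      _ = _ := by ring
  have h6 : (1 : ℝ) ≤ x ^ (7 / 4 : ℝ) := Real.one_le_rpow hx (by norm_num)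
  rw [mul_assoc, hxx] at hint2
  rw [hint]
  have h7 : x * cn K P x - (rk K P * ((x ^ 2 - 1) / 2) +
      ∫ t in Set.Ioc 1 x, (cn K P t - rk K P * t)) - rk K P * x ^ 2 / 2 =
      rk K P / 2 + x * (cn K P x - rk K P * x) -
        ∫ t in Set.Ioc 1 x, (cn K P t - rk K P * t) := by ring
  rw [h7]
  have h8 : |rk K P / 2| ≤ |rk K P| * x ^ (7 / 4 : ℝ) := by
    rw [abs_div, abs_two]
    nlinarith [abs_nonneg (rk K P)]
  refine (abs_sub _ _).trans ?_
  refine (add_le_add (abs_add_le _ _) le_rfl).trans ?_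
  nlinarith

end Pool.Agent.H37.HH
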