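import Pool.Agent.H33.HH.Defs

/-!
# Half of all: definitions for the characters and the smooth sums
-/

set_option autoImplicit false

open NumberField Complex Filter Topology MeasureTheory
open scoped ContDiff nonZeroDivisors

namespace Pool.Agent.H33.HH

open Pool.Agent.H28.RC Pool.Agent.H37.CV

noncomputable section

variable {K : Type} [Field K] [NumberField K]

/-- the number of units congruent to `1` modulo `d` -/
def wn (d : Ideal (𝓞 K)) : ℕ := {u : (𝓞 K)ˣ | (u : 𝓞 K) - 1 ∈ d}.ncard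

open scoped Classical in
/-- the quotient `f / ∏ S` -/
def qu (f : Ideal (𝓞 K)) (S : Finset (PrI K)) : Ideal (𝓞 K) :=
  if h : ∃ D, f = idS S * D then h.choose else ⊤

/-- the sum of `μ(c) φ(f / c)` over the divisors `c` of `f` -/
def phs (f : Ideal (𝓞 K)) : ℝ := ∑ S ∈ (pf f).powerset, (-1) ^ S.card * ph (qu f S)

/-- the quadratic form with the kernel, for coefficients `c` -/
def QQ (f : Ideal (𝓞 K)) (c : Ideal (𝓞 K) → ℝ) : ℝ :=
  ∑ᶠ p : Ideal (𝓞 K) × Ideal (𝓞 K), (kap f p.1 p.2 : ℝ) * c p.1 * c p.2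

open scoped Classical in
/-- the coefficients of the mollified sum -/
def cfm (P y Z : ℝ) (G : ℝ → ℝ) (n : Ideal (𝓞 K)) : ℝ :=
  if n ≠ ⊥ ∧ Cp P n then ∑ S ∈ (DP K P y).filter (fun S => idS S ∣ n),
    lm K P y S * nS np S ^ (-(1 / 2) : ℝ) * gz G Z (nm n / nS np S) else 0

/-- the smooth sum of the `ψ(m) N(m)^(-s)` -/
def SG (G : ℝ → ℝ) (X : ℝ) (s : ℂ) (ψ : Ideal (𝓞 K) → ℂ) : ℂ :=
  ∑' m : NI K, (G (nm m.1 / X) : ℂ) * (nm m.1 : ℂ) ^ (-s) * ψ m.1

end

end Pool.Agent.H33.HH
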