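import Pool.Agent.H33.HH.TB
import Pool.Agent.H37.HH.Defs4

/-!
# Targets, part 4: the characters (section 4) and the smooth sums (section 2) of H33_HALF.md
-/

set_option autoImplicit false

open NumberField Complex Filter Topology MeasureTheory
open scoped ContDiff nonZeroDivisors

namespace Pool.Agent.H33.HH

open Pool.Agent.H28.RC Pool.Agent.H37.CV

noncomputable section

/-! ### The number of the characters and the units -/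

/-- PHN: Euler's function. -/
def T_PHN : Prop := ∀ (K : Type) [Field K] [NumberField K],
  (∀ f : Ideal (𝓞 K), f ≠ ⊥ → (Nat.card (𝓞 K ⧸ f)ˣ : ℝ) = ph f ∧ 0 < ph f ∧ ph f ≤ nm f) ∧
  (∀ f g : Ideal (𝓞 K), f ≠ ⊥ → g ≠ ⊥ → f ⊔ g = ⊤ → ph (f * g) = ph f * ph g) ∧
  ∀ (P : PrI K) (e : ℕ), ph (P.1 ^ (e + 1)) = np P ^ e * (np P - 1)

/-- NCE: the number of the characters modulo `d`. -/
def T_NCE : Prop := ∀ (K : Type) [Field K] [NumberField K] [IsTotallyComplex K]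
  (m d : Ideal (𝓞 K)), m ≠ ⊥ → m ≤ d →
  nc m d * uc d = classNumber K * Nat.card (𝓞 K ⧸ d)ˣ

/-- UCW: the units. -/
def T_UCW : Prop := ∀ (K : Type) [Field K] [NumberField K] [IQ K] (d : Ideal (𝓞 K)),
  0 < uc d ∧ (uc d : ℝ) * wn d = wu K ∧ 1 ≤ wn d ∧ (4 < nm d → wn d = 1)

/-- KAP: the kernel and the classes. -/
def T_KAP : Prop := ∀ (K : Type) [Field K] [NumberField K] [IQ K] (m d I J : Ideal (𝓞 K)),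
  m ≠ ⊥ → m ≤ d → I ≠ ⊥ → J ≠ ⊥ → I ⊔ m = ⊤ → J ⊔ m = ⊤ →
  (Rl m d I J → kap d I J = wn d) ∧ (¬ Rl m d I J → kap d I J = 0)

/-- ORH: orthogonality. -/
def T_ORH : Prop := ∀ (K : Type) [Field K] [NumberField K] [IQ K] (m d : Ideal (𝓞 K)),
  m ≠ ⊥ → m ≤ d → (Ch m d).Finite ∧ ∀ I J : Ideal (𝓞 K), I ≠ ⊥ → J ≠ ⊥ → I ⊔ m = ⊤ →
  J ⊔ m = ⊤ → ∑ᶠ ψ ∈ Ch m d, ψ I * (starRingEnd ℂ) (ψ J) =
    ((hc K * ph d / wu K * kap d I J : ℝ) : ℂ)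

/-! ### The upper bound by positivity -/

/-- KGC: the common divisor. -/
def T_KGC : Prop := ∀ (K : Type) [Field K] [NumberField K] [IQ K] (k q I J : Ideal (𝓞 K)),
  I ≠ ⊥ → J ≠ ⊥ → (kap (k * q) I J ≠ 0 → I ⊔ q = J ⊔ q) ∧
  ∀ g : Ideal (𝓞 K), g ≠ ⊥ → kap (k * (g * q)) (g * I) (g * J) = kap (k * q) I J

open scoped Classical in
/-- QUO: the quotients. -/
def T_QUO : Prop := ∀ (K : Type) [Field K] [NumberField K] (f : Ideal (𝓞 K)), f ≠ ⊥ →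
  (∀ P : PrI K, P ∈ pf f ↔ f ≤ P.1) ∧
  (∀ S : Finset (PrI K), S ⊆ pf f → f = idS S * qu f S ∧ f ≤ qu f S ∧ qu f S ≠ ⊥ ∧
    (∀ P : PrI K, qu f S ≤ P.1 → f ≤ P.1) ∧
    ∀ m : Ideal (𝓞 K), f ≤ m → (∀ P ∈ S, ∃ D, f = P.1 * D ∧ D ≤ m) → qu f S ≤ m) ∧
  (∀ S : Finset (PrI K), S ⊆ pf f → ∀ T : Finset (PrI K), S ⊆ T → T ⊆ pf f →
    qu f S ≤ qu f T) ∧
  ∀ g : Ideal (𝓞 K), g ≠ ⊥ → f ⊔ g = ⊤ → Disjoint (pf f) (pf g) ∧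
    (∀ P : PrI K, P ∈ pf (f * g) ↔ P ∈ pf f ∨ P ∈ pf g) ∧
    (∀ S : Finset (PrI K), S ⊆ pf f → qu (f * g) S = qu f S * g ∧ qu f S ⊔ g = ⊤) ∧
    ∀ S T : Finset (PrI K), S ⊆ pf f → T ⊆ pf g → qu (f * g) (S ∪ T) = qu f S * qu g T

/-- IEX: primitive characters by inclusion and exclusion. -/
def T_IEX : Prop := ∀ (K : Type) [Field K] [NumberField K] [IsTotallyComplex K]
  (m : Ideal (𝓞 K)), m ≠ ⊥ → (Pr K m).Finite ∧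
  (m ≠ ⊤ → ∀ F : (Ideal (𝓞 K) → ℂ) → ℂ, ∑ᶠ χ ∈ Pr K m, F χ.ψ =
    ∑ S ∈ (pf m).powerset, (-1 : ℂ) ^ S.card * ∑ᶠ ψ ∈ Ch m (qu m S), F ψ) ∧
  ∀ (k q : Ideal (𝓞 K)) (F : (Ideal (𝓞 K) → ℂ) → ℝ), m = k * q → k ⊔ q = ⊤ → (∀ ψ, 0 ≤ F ψ) →
    0 ≤ ∑ S ∈ (pf k).powerset, (-1 : ℝ) ^ S.card * ∑ᶠ ψ ∈ Ch m (qu k S * q), F ψ ∧
    (m ≠ ⊤ → ∑ᶠ χ ∈ Pr K m, F χ.ψ ≤
      ∑ S ∈ (pf k).powerset, (-1 : ℝ) ^ S.card * ∑ᶠ ψ ∈ Ch m (qu k S * q), F ψ)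

/-- QFO: the quadratic form opened. -/
def T_QFO : Prop := ∀ (K : Type) [Field K] [NumberField K] [IQ K] (k k' q : Ideal (𝓞 K))
  (c : Ideal (𝓞 K) → ℝ), k ≠ ⊥ → k ≤ k' → q ≠ ⊥ → k ⊔ q = ⊤ → (Function.support c).Finite →
  (∀ n, c n ≠ 0 → n ≠ ⊥ ∧ n ⊔ k = ⊤) →
  QQ (k' * q) c = ∑ᶠ p ∈ {p : Ideal (𝓞 K) × Ideal (𝓞 K) | p.1 * p.2 = q},
    (wu K / (hc K * ph (k' * p.2))) * ∑ᶠ ψ ∈ Ch (k * p.2) (k' * p.2),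
      ‖∑ᶠ n : Ideal (𝓞 K), (c (p.1 * n) : ℂ) * ψ n‖ ^ 2

/-- PSQ: the upper bound by positivity. -/
def T_PSQ : Prop := ∀ (K : Type) [Field K] [NumberField K] [IQ K] (k q : Ideal (𝓞 K))
  (c : Ideal (𝓞 K) → ℝ), k ≠ ⊥ → q ≠ ⊥ → k ⊔ q = ⊤ → k * q ≠ ⊤ →
  (Function.support c).Finite → (∀ n, c n ≠ 0 → n ≠ ⊥ ∧ n ⊔ k = ⊤) →
  ∑ᶠ χ ∈ Pr K (k * q), ‖∑ᶠ n : Ideal (𝓞 K), (c n : ℂ) * χ.ψ n‖ ^ 2 ≤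
    (hc K * nm q / wu K) * ∑ S ∈ (pf k).powerset,
      (-1) ^ S.card * ph (qu k S) * QQ (qu k S * q) c

/-- BQC: the mollified sum and the form with one coefficient. -/
def T_BQC : Prop := ∀ (K : Type) [Field K] [NumberField K] [IQ K] (P y Z : ℝ) (G : ℝ → ℝ),
  IsG G → 1 ≤ y → 0 < Z →
  (Function.support (cfm (K := K) P y Z G)).Finite ∧
  (∀ n : Ideal (𝓞 K), cfm P y Z G n ≠ 0 → n ≠ ⊥ ∧ Cp P n ∧ nm n ≤ 3 * y * Z) ∧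
  (∀ ψ : Ideal (𝓞 K) → ℂ, (∀ I J, ψ (I * J) = ψ I * ψ J) →
    Bv P y Z G ψ = ∑ᶠ n : Ideal (𝓞 K), (cfm P y Z G n : ℂ) * ψ n) ∧
  ∀ f : Ideal (𝓞 K), Qf P y Z G f = QQ f (cfm P y Z G)

/-- POS: the upper bound by positivity, for the mollified central values. -/
def T_POS : Prop := ∀ (K : Type) [Field K] [NumberField K] [IQ K] (P y Z : ℝ) (G : ℝ → ℝ)
  (k q : Ideal (𝓞 K)), IsG G → 1 ≤ y → 0 < Z → Sm' P k → q ≠ ⊥ → Cp P q → k * q ≠ ⊤ →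
  ∑ᶠ χ ∈ Pr K (k * q), ‖Bv P y Z G χ.ψ‖ ^ 2 ≤ (hc K * nm q / wu K) *
    ∑ S ∈ (pf k).powerset, (-1) ^ S.card * ph (qu k S) * Qf P y Z G (qu k S * q)

/-! ### The number of the primitive characters -/

/-- PHM: the function `phs`. -/
def T_PHM : Prop := ∀ (K : Type) [Field K] [NumberField K],
  (∀ f g : Ideal (𝓞 K), f ≠ ⊥ → g ≠ ⊥ → f ⊔ g = ⊤ → phs (f * g) = phs f * phs g) ∧
  phs (⊤ : Ideal (𝓞 K)) = 1 ∧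
  ∀ f : Ideal (𝓞 K), f ≠ ⊥ → 0 ≤ phs f ∧ phs f ≤ ph f ∧
    nm f - ∑ P ∈ pf f, 2 * (nm f / np P) ≤ phs f

/-- NPR: the number of the primitive characters. -/
def T_NPR : Prop := ∀ (K : Type) [Field K] [NumberField K] [IQ K], ∃ C : ℝ, 0 ≤ C ∧
  ∀ f : Ideal (𝓞 K), f ≠ ⊥ → f ≠ ⊤ → |((Pr K f).ncard : ℝ) - hc K / wu K * phs f| ≤ C

/-- PHW: the mean value of `phs`. -/
def T_PHW : Prop := ∀ (K : Type) [Field K] [NumberField K] [IQ K] (W : ℝ → ℝ), IsW W →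
  0 < W1 W → ∀ ε : ℝ, 0 < ε → ∃ P₀ : ℝ, ∀ P : ℝ, P₀ ≤ P → ∃ Q₀ : ℝ, 1 ≤ Q₀ ∧
  ∀ Q : ℝ, Q₀ ≤ Q →
    (1 - ε) * TW K P Q W ≤ sumC (K := K) P fun q => W (nm q / Q) * phs q

/-! ### The smooth sums -/

/-- CLS: sums over the ideals, class by class. -/
def T_CLS : Prop := ∀ (K : Type) [Field K] [NumberField K] [IQ K],
  ∃ J : ClassGroup (𝓞 K) → FractionalIdeal (𝓞 K)⁰ K, (∀ i, J i ≠ 0) ∧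
  (∀ i, ∀ x : K, x ∈ J i → nm (idl K (J i) x) =
    ‖em K x‖ ^ 2 / ((FractionalIdeal.absNorm (J i) : ℚ) : ℝ)) ∧
  ∀ F : Ideal (𝓞 K) → ℂ, (∃ b : ℝ, ∀ I, b ≤ nm I → F I = 0) →
    (∀ i, Summable fun x : {x : K // x ∈ J i ∧ x ≠ 0} => F (idl K (J i) x.1)) ∧
    ∑' l : NI K, F l.1 = ((wu K : ℝ) : ℂ)⁻¹ *
      ∑ i, ∑' x : {x : K // x ∈ J i ∧ x ≠ 0}, F (idl K (J i) x.1)

/-- TWS: smooth sums of a character. -/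
def T_TWS : Prop := ∀ (K : Type) [Field K] [NumberField K] [IQ K] (k : ℕ), 2 ≤ k →
  ∃ C : ℝ, 0 ≤ C ∧ ∀ (g : ℝ → ℝ) (M : ℝ), ContDiff ℝ ∞ (fun z : ℂ => g (‖z‖ ^ 2)) →
  (∀ u, 1 < u → g u = 0) → (∀ z : ℂ, ‖iteratedFDeriv ℝ k (fun z : ℂ => g (‖z‖ ^ 2)) z‖ ≤ M) →
  ∀ χ : RCC K, χ.f ≠ ⊤ → ∀ X : ℝ, nm χ.f ≤ X →
  ‖∑' m : NI K, ((g (nm m.1 / X) : ℝ) : ℂ) * χ.ψ m.1‖ ≤
    C * M * nm χ.f * (X / nm χ.f) ^ (1 - (k : ℝ) / 2)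

/-- SGD: the difference of two smooth sums. -/
def T_SGD : Prop := ∀ (K : Type) [Field K] [NumberField K] [IQ K] (G : ℝ → ℝ), IsG G →
  ∀ k : ℕ, 2 ≤ k → ∃ C : ℝ, 0 ≤ C ∧ ∀ χ : RCC K, χ.f ≠ ⊤ → ∀ X : ℝ, nm χ.f ≤ X →
  ∀ s : ℂ, ‖s‖ ≤ 3 → ‖SG G (2 * X) s χ.ψ - SG G X s χ.ψ‖ ≤
    C * nm χ.f * X ^ 3 * (X / nm χ.f) ^ (1 - (k : ℝ) / 2)

/-- SSM: the central value as a smooth sum. -/
def T_SSM : Prop := ∀ (K : Type) [Field K] [NumberField K] [IQ K] (G : ℝ → ℝ), IsG G →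
  ∀ k : ℕ, 9 ≤ k → ∃ C : ℝ, 0 ≤ C ∧ ∀ χ : RCC K, χ.f ≠ ⊤ → ∀ Z : ℂ → ℂ, IsEnt χ Z →
  ∀ X : ℝ, nm χ.f ≤ X → ‖SG G X (1 / 2) χ.ψ - Z (1 / 2)‖ ≤
    C * nm χ.f * X ^ 3 * (X / nm χ.f) ^ (1 - (k : ℝ) / 2)

/-- BSG: the mollified central value in terms of the smooth sums. -/
def T_BSG : Prop := ∀ (K : Type) [Field K] [NumberField K] [IQ K] (P y Z : ℝ) (G : ℝ → ℝ),
  IsG G → 1 ≤ y → 0 < Z → ∀ ψ : Ideal (𝓞 K) → ℂ, (∀ I J, ψ (I * J) = ψ I * ψ J) →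
  (∀ I, ‖ψ I‖ ≤ 1) → ψ ⊤ = 1 → Bv P y Z G ψ =
    (∑ S ∈ DP K P y, ((lm K P y S * nS np S ^ (-(1 / 2) : ℝ) : ℝ) : ℂ) * ψ (idS S)) *
      ∑ T ∈ (SP K P).powerset, (-1 : ℂ) ^ T.card * ((nS np T ^ (-(1 / 2) : ℝ) : ℝ) : ℂ) *
        ψ (idS T) * SG G (Z / nS np T) (1 / 2) ψ

/-- BSM: the mollified central value is small if the central value vanishes. -/
def T_BSM : Prop := ∀ (K : Type) [Field K] [NumberField K] [IQ K] (G : ℝ → ℝ), IsG G →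
  ∀ P κ θ e : ℝ, 0 < κ → 0 < θ → 0 < e → ∃ Q₀ : ℝ, 1 ≤ Q₀ ∧ ∀ Q : ℝ, Q₀ ≤ Q →
  ∀ χ : RCC K, χ.f ≠ ⊤ → nm χ.f ≤ κ * Q → (∃ Z, IsEnt χ Z) ∧
    ((∃ Z, IsEnt χ Z ∧ Z (1 / 2) = 0) → ‖Bv P (Q ^ θ) (Q ^ (1 + e)) G χ.ψ‖ ≤ 1 / Q)

end

end Pool.Agent.H33.HH
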